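import Mathlib.LinearAlgebra.Matrix.NonsingularInverse
import Mathlib.LinearAlgebra.Matrix.ToLin
import Mathlib.LinearAlgebra.FiniteDimensional.Lemmas
import Mathlib.Data.Real.Basic
import Mathlib.Tactic

/-!
Completion of a pair of rectangular matrices with product the identity to a square matrix and its
inverse.
-/

set_option autoImplicit false

namespace Pool.Agent.NPC.ER.Q325CI

open Matrix

theorem completion {r s : ℕ} (X : Matrix (Fin r) (Fin (r + s)) ℝ) (Y : Matrix (Fin (r + s)) (Fin r) ℝ)
    (h : X * Y = 1) : ∃ A B : Matrix (Fin (r + s)) (Fin (r + s)) ℝ, A * B = 1 ∧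
      (∀ i c, A (Fin.castAdd s i) c = X i c) ∧ ∀ c j, B c (Fin.castAdd s j) = Y c j := by
  classical
  set f : (Fin (r + s) → ℝ) →ₗ[ℝ] (Fin r → ℝ) := X.mulVecLin with hf
  have hsurj : Function.Surjective f := by
    intro y
    refine ⟨Y *ᵥ y, ?_⟩
    rw [hf, Matrix.mulVecLin_apply, Matrix.mulVec_mulVec, h, Matrix.one_mulVec]
  have hdim : Module.finrank ℝ (LinearMap.ker f) = s := by
    have h1 := LinearMap.finrank_range_add_finrank_ker f
    rw [LinearMap.range_eq_top.2 hsurj, finrank_top] at h1
    simp only [Module.finrank_fin_fun] at h1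
    omega
  let kb : Module.Basis (Fin s) ℝ (LinearMap.ker f) := Module.finBasisOfFinrankEq ℝ _ hdim
  let B : Matrix (Fin (r + s)) (Fin (r + s)) ℝ := Matrix.of fun c j =>
    Fin.addCases (motive := fun _ => ℝ) (fun j1 => Y c j1) (fun j2 => (kb j2 : Fin (r + s) → ℝ) c) j
  have hB1 : ∀ c j, B c (Fin.castAdd s j) = Y c j := by
    intro c j
    simp [B]
  have hB2 : ∀ c j, B c (Fin.natAdd r j) = (kb j : Fin (r + s) → ℝ) c := by
    intro c j
    simp [B]
  have hXB1 : ∀ i j, (X * B) i (Fin.castAdd s j) = if i = j then 1 else 0 := by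
    intro i j
    rw [Matrix.mul_apply]
    simp only [hB1]
    rw [← Matrix.mul_apply, h, Matrix.one_apply]
  have hXB2 : ∀ i j, (X * B) i (Fin.natAdd r j) = 0 := by
    intro i j
    rw [Matrix.mul_apply]
    simp only [hB2]
    have h2 : X *ᵥ (kb j : Fin (r + s) → ℝ) = 0 := LinearMap.mem_ker.1 (kb j).2
    exact congrFun h2 i
  have hinj : Function.Injective B.mulVec := by
    have h0 : ∀ v, B *ᵥ v = 0 → v = 0 := by
      intro v hv
      have h3 : ∀ i, v (Fin.castAdd s i) = 0 := by
        intro i
        have h4 : (X * B) *ᵥ v = 0 := by rw [← Matrix.mulVec_mulVec, hv, Matrix.mulVec_zero]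
        have h5 := congrFun h4 i
        simp only [Matrix.mulVec, dotProduct, Fin.sum_univ_add, hXB1, hXB2] at h5
        simpa using h5
      have h6 : ∑ j, v (Fin.natAdd r j) • kb j = 0 := by
        apply Subtype.ext
        rw [Submodule.coe_sum, Submodule.coe_zero]
        funext c
        rw [Finset.sum_apply]
        have h7 := congrFun hv c
        simp only [Matrix.mulVec, dotProduct, Fin.sum_univ_add, h3, hB2, mul_zero,
          Finset.sum_const_zero, zero_add] at h7
        rw [← h7]
        refine Finset.sum_congr rfl fun j _ => ?_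
        simp [mul_comm]
      have h8 := Fintype.linearIndependent_iff.1 kb.linearIndependent _ h6
      funext c
      refine Fin.addCases (fun i => h3 i) (fun j => h8 j) c
    intro v w hvw
    have : B *ᵥ (v - w) = 0 := by
      rw [Matrix.mulVec_sub]
      exact sub_eq_zero.2 hvw
    exact sub_eq_zero.1 (h0 _ this)
  have hu : IsUnit B := Matrix.mulVec_injective_iff_isUnit.1 hinj
  have hdet : IsUnit B.det := (Matrix.isUnit_iff_isUnit_det B).1 hu
  refine ⟨B⁻¹, B, Matrix.nonsing_inv_mul B hdet, ?_, hB1⟩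
  intro i c
  have h9 : X = (X * B) * B⁻¹ := by
    rw [Matrix.mul_assoc, Matrix.mul_nonsing_inv B hdet, Matrix.mul_one]
  have h10 : X i c = ((X * B) * B⁻¹) i c := by rw [← h9]
  rw [h10, Matrix.mul_apply, Fin.sum_univ_add]
  simp only [hXB1, hXB2]
  simp

end Pool.Agent.NPC.ER.Q325CI
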