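import Pool.Agent.Q325.CI.Red
import Pool.Agent.Q325.MinRank

/-!
# Constrained matrix invertibility: the orthogonality instance of a system
-/

set_option autoImplicit false

namespace Pool.Agent.NPC.ER.Q325CI

open Q325MR (cAt)

/-- the variable in a slot -/
def vr (c : Con) (k : ℕ) : ℕ :=
  if k = 0 then c.code.2.1 else if k = 1 then c.code.2.2.1 else c.code.2.2.2

/-- the specifications: four frame vectors and sixteen vectors of a constraint -/
def tab : List Sp :=
  [(false, [1, 2], 1), (true, [1, 2], 1), (false, [0, 1], 0), (true, [0, 1], 0),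
    (true, [0, 1], 0), (true, [0, 1], 0), (true, [0, 1], 0),
    (true, [0, 1, 2], 0), (true, [0, 1, 2], 0), (true, [0, 1, 2], 0),
    (false, [0, 1], 1), (false, [0, 1], 1), (false, [0, 1], 1),
    (false, [0, 2], 2), (false, [0, 2], 2), (false, [0, 2], 2),
    (true, [0, 1, 2], 0), (true, [0, 1, 2], 0), (false, [0, 1, 2], 1), (false, [1, 2], 2)]

/-- the position in the table -/
def pos (i : ℕ) : ℕ := if i < 4 then i else 4 + (i - 4) % 16

def DS (S : List Con) : List Sp :=
  (List.range (4 + 16 * S.length)).map fun i => tab.getD (pos i) (false, [], 0)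

/-- the number of a vector: absolute or relative to a constraint -/
def ix (t : ℕ) (q : Bool × ℕ) : ℕ := if q.1 = true then 4 + 16 * t + q.2 else q.2

def tCom : List ((Bool × ℕ) × (Bool × ℕ)) :=
  [((true, 3), (true, 6)), ((true, 4), (true, 7)), ((true, 5), (true, 8)),
    ((true, 3), (false, 0)), ((true, 4), (false, 0)), ((true, 5), (false, 0)),
    ((true, 3), (true, 9)), ((true, 4), (true, 10)), ((true, 5), (true, 11))]
def tOne : List ((Bool × ℕ) × (Bool × ℕ)) := [((true, 0), (false, 2))]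
def tAdd : List ((Bool × ℕ) × (Bool × ℕ)) :=
  [((true, 12), (true, 8)), ((true, 12), (true, 10)), ((true, 12), (true, 14)),
    ((true, 0), (true, 14)), ((false, 1), (true, 14))]
def tMul : List ((Bool × ℕ) × (Bool × ℕ)) :=
  [((true, 12), (false, 2)), ((true, 12), (true, 9)), ((true, 12), (true, 15)),
    ((true, 13), (true, 7)), ((true, 13), (true, 11)), ((true, 13), (true, 15))]

def tabOf (c : Con) : List ((Bool × ℕ) × (Bool × ℕ)) :=
  tCom ++ (if c.code.1 = 0 then tOne else if c.code.1 = 1 then tAdd else tMul)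

def loc (S : List Con) (t : ℕ) : List (ℕ × ℕ) :=
  (tabOf (cAt S t)).map fun q => (ix t q.1, ix t q.2)

def kk : List (ℕ × ℕ) := [(0, 0), (0, 1), (0, 2), (1, 0), (1, 1), (1, 2), (2, 0), (2, 1), (2, 2)]

def cross (S : List Con) (t t' : ℕ) : List (ℕ × ℕ) :=
  (kk.filter fun q => decide (vr (cAt S t) q.1 = vr (cAt S t') q.2)).map fun q =>
    (4 + 16 * t + q.1, 4 + 16 * t' + (6 + q.2))

def ES (S : List Con) : List (ℕ × ℕ) :=
  [(1, 0), (3, 2)] ++ ((List.range S.length).flatMap (fun t => loc S t) ++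
    (List.range S.length).flatMap fun t => (List.range S.length).flatMap fun t' => cross S t t')

theorem DS_length (S : List Con) : (DS S).length = 4 + 16 * S.length := by simp [DS]

theorem sp_DS (S : List Con) {i : ℕ} (hi : i < 4 + 16 * S.length) :
    sp (DS S) i = tab.getD (pos i) (false, [], 0) := by
  unfold sp DS
  rw [List.getD_eq_getElem?_getD, List.getElem?_map, List.getElem?_range hi]
  simp only [Option.map_some, Option.getD_some]

theorem pos_lo {i : ℕ} (hi : i < 4) : pos i = i := if_pos hi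

theorem pos_hi {t m : ℕ} (hm : m < 16) : pos (4 + 16 * t + m) = 4 + m := by
  unfold pos
  rw [if_neg (by omega)]
  omega

theorem mem_ES {S : List Con} {p : ℕ × ℕ} : p ∈ ES S ↔ p = (1, 0) ∨ p = (3, 2) ∨
    (∃ t < S.length, p ∈ loc S t) ∨ ∃ t < S.length, ∃ t' < S.length, p ∈ cross S t t' := by
  unfold ES
  simp only [List.mem_append, List.mem_cons, List.not_mem_nil, or_false, List.mem_flatMap,
    List.mem_range]
  exact or_assoc

theorem mem_cross {S : List Con} {t t' : ℕ} {p : ℕ × ℕ} : p ∈ cross S t t' ↔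
    ∃ k < 3, ∃ k' < 3, vr (cAt S t) k = vr (cAt S t') k' ∧
      p = (4 + 16 * t + k, 4 + 16 * t' + (6 + k')) := by
  unfold cross
  rw [List.mem_map]
  constructor
  · rintro ⟨q, hq, rfl⟩
    rw [List.mem_filter, decide_eq_true_eq] at hq
    obtain ⟨h1, h2⟩ := hq
    have h3 : q.1 < 3 ∧ q.2 < 3 := by
      simp only [kk, List.mem_cons, List.not_mem_nil, or_false] at h1
      rcases h1 with rfl | rfl | rfl | rfl | rfl | rfl | rfl | rfl | rfl <;> norm_num
    exact ⟨q.1, h3.1, q.2, h3.2, h2, rfl⟩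
  · rintro ⟨k, hk, k', hk', h, rfl⟩
    refine ⟨(k, k'), ?_, rfl⟩
    rw [List.mem_filter, decide_eq_true_eq]
    refine ⟨?_, h⟩
    have h1 : k = 0 ∨ k = 1 ∨ k = 2 := by omega
    have h2 : k' = 0 ∨ k' = 1 ∨ k' = 2 := by omega
    rcases h1 with rfl | rfl | rfl <;> rcases h2 with rfl | rfl | rfl <;> simp [kk]

theorem spec_hi (S : List Con) {t m : ℕ} (ht : t < S.length) (hm : m < 16) :
    sp (DS S) (4 + 16 * t + m) = tab.getD (4 + m) (false, [], 0) := by
  rw [sp_DS S (by omega), pos_hi hm]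

theorem spec_lo (S : List Con) {i : ℕ} (hi : i < 4) :
    sp (DS S) i = tab.getD i (false, [], 0) := by
  rw [sp_DS S (by omega), pos_lo hi]

/-- is the table entry of the kind a row, column vector -/
def okq (q : (Bool × ℕ) × (Bool × ℕ)) : Bool :=
  (if q.1.1 then decide (q.1.2 < 16) && (tab.getD (4 + q.1.2) (false, [], 0)).1
    else decide (q.1.2 < 4) && (tab.getD q.1.2 (false, [], 0)).1) &&
  (if q.2.1 then decide (q.2.2 < 16) && !(tab.getD (4 + q.2.2) (false, [], 0)).1
    else decide (q.2.2 < 4) && !(tab.getD q.2.2 (false, [], 0)).1)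

theorem okq_all (c : Con) : ∀ q ∈ tabOf c, okq q = true := by
  intro q hq
  unfold tabOf at hq
  rw [List.mem_append] at hq
  have h1 : ∀ q ∈ tCom, okq q = true := by decide
  have h2 : ∀ q ∈ tOne, okq q = true := by decide
  have h3 : ∀ q ∈ tAdd, okq q = true := by decide
  have h4 : ∀ q ∈ tMul, okq q = true := by decide
  rcases hq with hq | hq
  · exact h1 q hq
  · split_ifs at hq
    · exact h2 q hq
    · exact h3 q hq
    · exact h4 q hq

theorem valid (S : List Con) : Valid (DS S) (ES S) := by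
  constructor
  · intro i hi
    rw [DS_length] at hi
    rw [sp_DS S hi]
    have h1 : pos i < 20 := by
      unfold pos
      split_ifs <;> omega
    have h2 : ∀ j < 20, (tab.getD j (false, [], 0)).2.2 < 3 := by decide
    exact h2 _ h1
  · intro p hp
    rw [DS_length]
    rcases mem_ES.1 hp with rfl | rfl | ⟨t, ht, hl⟩ | ⟨t, ht, t', ht', hc⟩
    · refine ⟨by omega, by omega, ?_, ?_⟩
      · rw [spec_lo S (by norm_num)]; rfl
      · rw [spec_lo S (by norm_num)]; rfl
    · refine ⟨by omega, by omega, ?_, ?_⟩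
      · rw [spec_lo S (by norm_num)]; rfl
      · rw [spec_lo S (by norm_num)]; rfl
    · unfold loc at hl
      rw [List.mem_map] at hl
      obtain ⟨q, hq, rfl⟩ := hl
      have h1 := okq_all _ q hq
      unfold okq at h1
      rw [Bool.and_eq_true] at h1
      obtain ⟨h2, h3⟩ := h1
      have e1 : ix t q.1 < 4 + 16 * S.length ∧ (sp (DS S) (ix t q.1)).1 = true := by
        unfold ix
        split_ifs at h2 ⊢ with h
        · rw [Bool.and_eq_true, decide_eq_true_eq] at h2
          rw [spec_hi S ht h2.1]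
          exact ⟨by omega, h2.2⟩
        · rw [Bool.and_eq_true, decide_eq_true_eq] at h2
          rw [spec_lo S h2.1]
          exact ⟨by omega, h2.2⟩
      have e2 : ix t q.2 < 4 + 16 * S.length ∧ (sp (DS S) (ix t q.2)).1 = false := by
        unfold ix
        split_ifs at h3 ⊢ with h
        · rw [Bool.and_eq_true, decide_eq_true_eq, Bool.not_eq_true'] at h3
          rw [spec_hi S ht h3.1]
          exact ⟨by omega, h3.2⟩
        · rw [Bool.and_eq_true, decide_eq_true_eq, Bool.not_eq_true'] at h3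
          rw [spec_lo S h3.1]
          exact ⟨by omega, h3.2⟩
      exact ⟨e1.1, e2.1, e1.2, e2.2⟩
    · obtain ⟨k, hk, k', hk', _, rfl⟩ := mem_cross.1 hc
      have h2 : ∀ j < 3, (tab.getD (4 + j) (false, [], 0)).1 = true := by decide
      have h3 : ∀ j < 3, (tab.getD (4 + (6 + j)) (false, [], 0)).1 = false := by decide
      refine ⟨by simp only; omega, by simp only; omega, ?_, ?_⟩
      · rw [spec_hi S ht (by omega)]
        exact h2 k hk
      · rw [spec_hi S ht' (by omega)]
        exact h3 k' hk'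

/-- the frame vectors -/
def fr (i : ℕ) : ℝ × ℝ × ℝ :=
  match i with
  | 0 => (0, 1, -1)
  | 1 => (0, 1, 1)
  | 2 => (1, -1, 0)
  | _ => (1, 1, 0)

/-- the vectors of a constraint -/
def bt (c : ℕ) (a b d : ℝ) (m : ℕ) : ℝ × ℝ × ℝ :=
  match m with
  | 0 => (1, a, 0)
  | 1 => (1, b, 0)
  | 2 => (1, d, 0)
  | 3 => (1, a, a)
  | 4 => (1, b, b)
  | 5 => (1, d, d)
  | 6 => (-a, 1, 0)
  | 7 => (-b, 1, 0)
  | 8 => (-d, 1, 0)
  | 9 => (-a, 0, 1)
  | 10 => (-b, 0, 1)
  | 11 => (-d, 0, 1)
  | 12 => if c = 2 then (1, 1, a) else (1, d, b)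
  | 13 => (1, b, d)
  | 14 => (-a, 1, -1)
  | _ => (0, -a, 1)

/-- coordinates -/
def co (p : ℝ × ℝ × ℝ) (k : ℕ) : ℝ := if k = 0 then p.1 else if k = 1 then p.2.1 else p.2.2

/-- all vectors -/
def zt (S : List Con) (v : ℕ → ℝ) (i : ℕ) : ℝ × ℝ × ℝ :=
  if i < 4 then fr i else bt (cAt S ((i - 4) / 16)).code.1 (v (vr (cAt S ((i - 4) / 16)) 0))
    (v (vr (cAt S ((i - 4) / 16)) 1)) (v (vr (cAt S ((i - 4) / 16)) 2)) ((i - 4) % 16)

theorem zt_hi (S : List Con) (v : ℕ → ℝ) {t m : ℕ} (hm : m < 16) :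
    zt S v (4 + 16 * t + m) = bt (cAt S t).code.1 (v (vr (cAt S t) 0)) (v (vr (cAt S t) 1))
      (v (vr (cAt S t) 2)) m := by
  unfold zt
  rw [if_neg (by omega)]
  have h1 : (4 + 16 * t + m - 4) / 16 = t := by omega
  have h2 : (4 + 16 * t + m - 4) % 16 = m := by omega
  rw [h1, h2]

theorem dot3 (p q : ℝ × ℝ × ℝ) : ∑ k ∈ Finset.range 3, co p k * co q k =
    p.1 * q.1 + p.2.1 * q.2.1 + p.2.2 * q.2.2 := by
  simp [Finset.sum_range_succ, co]

theorem bt_ok (c : ℕ) (a b d : ℝ) (m : ℕ) (hm : m < 16) :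
    (∀ k < 3, al (tab.getD (4 + m) (false, [], 0)) k = false → co (bt c a b d m) k = 0) ∧
      co (bt c a b d m) (tab.getD (4 + m) (false, [], 0)).2.2 ≠ 0 := by
  constructor
  · intro k hk h
    have hk' : k = 0 ∨ k = 1 ∨ k = 2 := by omega
    interval_cases m <;> rcases hk' with rfl | rfl | rfl <;> simp [al, tab] at h <;>
      simp [bt, co]
  · interval_cases m <;> simp [bt, co, tab] <;> split_ifs <;> simp

theorem fr_ok (i : ℕ) (hi : i < 4) :
    (∀ k < 3, al (tab.getD i (false, [], 0)) k = false → co (fr i) k = 0) ∧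
      co (fr i) (tab.getD i (false, [], 0)).2.2 ≠ 0 := by
  constructor
  · intro k hk h
    have hk' : k = 0 ∨ k = 1 ∨ k = 2 := by omega
    interval_cases i <;> rcases hk' with rfl | rfl | rfl <;> simp [al, tab] at h <;>
      simp [fr, co]
  · interval_cases i <;> simp [fr, co, tab]

theorem split_i {S : List Con} {i : ℕ} (hi : i < 4 + 16 * S.length) :
    i < 4 ∨ ∃ t < S.length, ∃ m < 16, i = 4 + 16 * t + m := by
  by_cases h : i < 4
  · exact Or.inl h
  · exact Or.inr ⟨(i - 4) / 16, by omega, (i - 4) % 16, by omega, by omega⟩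

theorem cAt_mem {S : List Con} {t : ℕ} (ht : t < S.length) : cAt S t ∈ S := by
  unfold cAt
  rw [List.getD_eq_getElem?_getD, List.getElem?_eq_getElem ht]
  simp

theorem osat_of_sat {S : List Con} (h : Sat S) : OSat (DS S) (ES S) := by
  obtain ⟨v, hv⟩ := h
  refine ⟨fun i k => co (zt S v i) k, ?_, ?_, ?_⟩
  · intro i hi k hk hal
    rw [DS_length] at hi
    rcases split_i hi with h | ⟨t, ht, m, hm, rfl⟩
    · rw [spec_lo S h] at hal
      have : zt S v i = fr i := if_pos h
      simp only [this]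
      exact (fr_ok i h).1 k hk hal
    · rw [spec_hi S ht hm] at hal
      simp only [zt_hi S v hm]
      exact (bt_ok _ _ _ _ m hm).1 k hk hal
  · intro i hi
    rw [DS_length] at hi
    rcases split_i hi with h | ⟨t, ht, m, hm, rfl⟩
    · rw [spec_lo S h]
      have : zt S v i = fr i := if_pos h
      simp only [this]
      exact (fr_ok i h).2
    · rw [spec_hi S ht hm]
      simp only [zt_hi S v hm]
      exact (bt_ok _ _ _ _ m hm).2
  · intro p hp
    simp only [dot3]
    rcases mem_ES.1 hp with rfl | rfl | ⟨t, ht, hl⟩ | ⟨t, ht, t', ht', hc⟩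
    · simp [zt, fr]
    · simp [zt, fr]
    · have hcon := hv _ (cAt_mem ht)
      have hz : ∀ m < 16, zt S v (4 + 16 * t + m) = bt (cAt S t).code.1 (v (vr (cAt S t) 0))
        (v (vr (cAt S t) 1)) (v (vr (cAt S t) 2)) m := fun m hm => zt_hi S v hm
      have z0 : zt S v 0 = (0, 1, -1) := rfl
      have z1 : zt S v 1 = (0, 1, 1) := rfl
      have z2 : zt S v 2 = (1, -1, 0) := rfl
      unfold loc at hl
      rw [List.mem_map] at hl
      obtain ⟨q, hq, rfl⟩ := hl
      unfold tabOf at hq
      rw [List.mem_append] at hq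
      rcases hq with hq | hq
      · simp only [tCom, List.mem_cons, List.not_mem_nil, or_false] at hq
        rcases hq with rfl | rfl | rfl | rfl | rfl | rfl | rfl | rfl | rfl <;>
          simp only [ix, if_true, if_false, Bool.false_eq_true] <;>
          simp only [hz _ (show (3 : ℕ) < 16 by norm_num), hz _ (show (4 : ℕ) < 16 by norm_num),
            hz _ (show (5 : ℕ) < 16 by norm_num), hz _ (show (6 : ℕ) < 16 by norm_num),
            hz _ (show (7 : ℕ) < 16 by norm_num), hz _ (show (8 : ℕ) < 16 by norm_num),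
            hz _ (show (9 : ℕ) < 16 by norm_num), hz _ (show (10 : ℕ) < 16 by norm_num),
            hz _ (show (11 : ℕ) < 16 by norm_num), z0] <;> simp only [bt] <;> ring
      · cases hc : cAt S t with
        | one a =>
          rw [hc] at hq hcon hz
          simp only [Con.code, if_true, tOne, List.mem_cons, List.not_mem_nil, or_false] at hq
          subst hq
          simp only [ix, if_true, if_false, Bool.false_eq_true,
            hz _ (show (0 : ℕ) < 16 by norm_num), z2]
          simp only [bt, vr, Con.code, if_true]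
          simp only [Con.Holds] at hcon
          rw [hcon]
          ring
        | add a b d =>
          rw [hc] at hq hcon hz
          simp only [Con.code, one_ne_zero, if_true, if_false, tAdd, List.mem_cons,
            List.not_mem_nil, or_false] at hq
          simp only [Con.Holds] at hcon
          rcases hq with rfl | rfl | rfl | rfl | rfl <;>
            simp only [ix, if_true, if_false, Bool.false_eq_true] <;>
            simp only [hz _ (show (0 : ℕ) < 16 by norm_num), hz _ (show (8 : ℕ) < 16 by norm_num),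
              hz _ (show (10 : ℕ) < 16 by norm_num), hz _ (show (12 : ℕ) < 16 by norm_num),
              hz _ (show (14 : ℕ) < 16 by norm_num), z1] <;>
            simp [bt, vr, Con.code] <;> linarith
        | mul a b d =>
          rw [hc] at hq hcon hz
          simp only [Con.code, OfNat.ofNat_ne_zero, OfNat.ofNat_ne_one, if_false, tMul,
            List.mem_cons, List.not_mem_nil, or_false] at hq
          simp only [Con.Holds] at hcon
          rcases hq with rfl | rfl | rfl | rfl | rfl | rfl <;>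
            simp only [ix, if_true, if_false, Bool.false_eq_true] <;>
            simp only [hz _ (show (7 : ℕ) < 16 by norm_num), hz _ (show (9 : ℕ) < 16 by norm_num),
              hz _ (show (11 : ℕ) < 16 by norm_num), hz _ (show (12 : ℕ) < 16 by norm_num),
              hz _ (show (13 : ℕ) < 16 by norm_num), hz _ (show (15 : ℕ) < 16 by norm_num), z2] <;>
            simp [bt, vr, Con.code] <;> linarith
    · obtain ⟨k, hk, k', hk', he, rfl⟩ := mem_cross.1 hc
      simp only
      rw [zt_hi S v (by omega : k < 16), zt_hi S v (by omega : 6 + k' < 16)]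
      have h1 : bt (cAt S t).code.1 (v (vr (cAt S t) 0)) (v (vr (cAt S t) 1)) (v (vr (cAt S t) 2)) k =
          (1, v (vr (cAt S t) k), 0) := by
        have : k = 0 ∨ k = 1 ∨ k = 2 := by omega
        rcases this with rfl | rfl | rfl <;> rfl
      have h2 : bt (cAt S t').code.1 (v (vr (cAt S t') 0)) (v (vr (cAt S t') 1))
          (v (vr (cAt S t') 2)) (6 + k') = (- v (vr (cAt S t') k'), 1, 0) := by
        have : k' = 0 ∨ k' = 1 ∨ k' = 2 := by omega
        rcases this with rfl | rfl | rfl <;> rfl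
      rw [h1, h2, he]
      ring

theorem normalize {D : List Sp} {E : List (ℕ × ℕ)} (hV : Valid D E) (h : OSat D E) :
    ∃ z : ℕ → ℕ → ℝ, (∀ i < D.length, ∀ k < 3, al (sp D i) k = false → z i k = 0) ∧
      (∀ i < D.length, z i (sp D i).2.2 = 1) ∧
      ∀ p ∈ E, z p.1 0 * z p.2 0 + z p.1 1 * z p.2 1 + z p.1 2 * z p.2 2 = 0 := by
  obtain ⟨z, h1, h2, h3⟩ := h
  refine ⟨fun i k => z i k / z i (sp D i).2.2, ?_, ?_, ?_⟩
  · intro i hi k hk ha
    simp only [h1 i hi k hk ha, zero_div]
  · intro i hi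
    exact div_self (h2 i hi)
  · intro p hp
    obtain ⟨a1, a2, _, _⟩ := hV.2 p hp
    have h4 := h3 p hp
    simp only [Finset.sum_range_succ, Finset.sum_range_zero, zero_add] at h4
    have e1 := h2 _ a1
    have e2 := h2 _ a2
    field_simp
    linarith

theorem sat_of_osat {S : List Con} (h : OSat (DS S) (ES S)) : Sat S := by
  obtain ⟨z, hz0, hz1, hzE⟩ := normalize (valid S) h
  have lo0 : ∀ i < 4, ∀ k < 3, al (tab.getD i (false, [], 0)) k = false → z i k = 0 := by
    intro i hi k hk ha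
    exact hz0 i (by rw [DS_length]; omega) k hk (by rw [spec_lo S hi]; exact ha)
  have lo1 : ∀ i < 4, z i (tab.getD i (false, [], 0)).2.2 = 1 := by
    intro i hi
    have := hz1 i (by rw [DS_length]; omega)
    rwa [spec_lo S hi] at this
  have hi0 : ∀ t < S.length, ∀ m < 16, ∀ k < 3, al (tab.getD (4 + m) (false, [], 0)) k = false →
      z (4 + 16 * t + m) k = 0 := by
    intro t ht m hm k hk ha
    exact hz0 _ (by rw [DS_length]; omega) k hk (by rw [spec_hi S ht hm]; exact ha)
  have hi1 : ∀ t < S.length, ∀ m < 16, z (4 + 16 * t + m) (tab.getD (4 + m) (false, [], 0)).2.2 = 1 := by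
    intro t ht m hm
    have := hz1 (4 + 16 * t + m) (by rw [DS_length]; omega)
    rwa [spec_hi S ht hm] at this
  have F0 : z 0 0 = 0 := lo0 0 (by norm_num) 0 (by norm_num) (by decide)
  have F1 : z 0 1 = 1 := lo1 0 (by norm_num)
  have G0 : z 1 0 = 0 := lo0 1 (by norm_num) 0 (by norm_num) (by decide)
  have G1 : z 1 1 = 1 := lo1 1 (by norm_num)
  have H0 : z 2 0 = 1 := lo1 2 (by norm_num)
  have H2 : z 2 2 = 0 := lo0 2 (by norm_num) 2 (by norm_num) (by decide)
  have K0 : z 3 0 = 1 := lo1 3 (by norm_num)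
  have K2 : z 3 2 = 0 := lo0 3 (by norm_num) 2 (by norm_num) (by decide)
  have eGF := hzE (1, 0) (mem_ES.2 (Or.inl rfl))
  have eKH := hzE (3, 2) (mem_ES.2 (Or.inr (Or.inl rfl)))
  simp only [F0, F1, G0, G1] at eGF
  simp only [H0, H2, K0, K2] at eKH
  set f := z 0 2 with hf
  set ρ := z 1 2 with hρ
  set η := z 2 1 with hη
  set σ := z 3 1 with hσ
  have hρ0 : ρ ≠ 0 := by rintro h0; rw [h0] at eGF; norm_num at eGF
  have hη0 : η ≠ 0 := by rintro h0; rw [h0] at eKH; norm_num at eKH
  have hσ0 : σ ≠ 0 := by rintro h0; rw [h0] at eKH; norm_num at eKH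
  have hf0 : f ≠ 0 := by rintro h0; rw [h0] at eGF; norm_num at eGF
  -- the vectors of slots
  have hX0 : ∀ t < S.length, ∀ k < 3, z (4 + 16 * t + k) 0 = 1 := by
    intro t ht k hk
    have : k = 0 ∨ k = 1 ∨ k = 2 := by omega
    rcases this with rfl | rfl | rfl
    · exact hi1 t ht 0 (by norm_num)
    · exact hi1 t ht 1 (by norm_num)
    · exact hi1 t ht 2 (by norm_num)
  have hX2 : ∀ t < S.length, ∀ k < 3, z (4 + 16 * t + k) 2 = 0 := by
    intro t ht k hk
    have : k = 0 ∨ k = 1 ∨ k = 2 := by omega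
    rcases this with rfl | rfl | rfl
    · exact hi0 t ht 0 (by norm_num) 2 (by norm_num) (by decide)
    · exact hi0 t ht 1 (by norm_num) 2 (by norm_num) (by decide)
    · exact hi0 t ht 2 (by norm_num) 2 (by norm_num) (by decide)
  have hY1 : ∀ t < S.length, ∀ k < 3, z (4 + 16 * t + (6 + k)) 1 = 1 := by
    intro t ht k hk
    have : k = 0 ∨ k = 1 ∨ k = 2 := by omega
    rcases this with rfl | rfl | rfl
    · exact hi1 t ht 6 (by norm_num)
    · exact hi1 t ht 7 (by norm_num)
    · exact hi1 t ht 8 (by norm_num)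
  have hY2 : ∀ t < S.length, ∀ k < 3, z (4 + 16 * t + (6 + k)) 2 = 0 := by
    intro t ht k hk
    have : k = 0 ∨ k = 1 ∨ k = 2 := by omega
    rcases this with rfl | rfl | rfl
    · exact hi0 t ht 6 (by norm_num) 2 (by norm_num) (by decide)
    · exact hi0 t ht 7 (by norm_num) 2 (by norm_num) (by decide)
    · exact hi0 t ht 8 (by norm_num) 2 (by norm_num) (by decide)
  have hcr : ∀ t < S.length, ∀ k < 3, ∀ t' < S.length, ∀ k' < 3,
      vr (cAt S t) k = vr (cAt S t') k' →
      z (4 + 16 * t + k) 1 = - z (4 + 16 * t' + (6 + k')) 0 := by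
    intro t ht k hk t' ht' k' hk' he
    have h1 := hzE (4 + 16 * t + k, 4 + 16 * t' + (6 + k'))
      (mem_ES.2 (Or.inr (Or.inr (Or.inr ⟨t, ht, t', ht', mem_cross.2 ⟨k, hk, k', hk', he, rfl⟩⟩))))
    simp only [hX0 t ht k hk, hX2 t ht k hk, hY1 t' ht' k' hk', hY2 t' ht' k' hk'] at h1
    linarith
  have hloc : ∀ t < S.length, ∀ q ∈ tabOf (cAt S t),
      z (ix t q.1) 0 * z (ix t q.2) 0 + z (ix t q.1) 1 * z (ix t q.2) 1 +
        z (ix t q.1) 2 * z (ix t q.2) 2 = 0 := by
    intro t ht q hq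
    exact hzE (ix t q.1, ix t q.2) (mem_ES.2 (Or.inr (Or.inr (Or.inl ⟨t, ht,
      List.mem_map.2 ⟨q, hq, rfl⟩⟩))))
  have hslot : ∀ t < S.length, ∀ k < 3, ∃ w, w * f = - z (4 + 16 * t + k) 1 ∧
      z (4 + 16 * t + (6 + k)) 0 = - z (4 + 16 * t + k) 1 ∧
      z (4 + 16 * t + (9 + k)) 0 = - w := by
    intro t ht k hk
    have e1 := hcr t ht k hk t ht k hk rfl
    have hA0 : z (4 + 16 * t + (3 + k)) 0 = 1 := by
      have : k = 0 ∨ k = 1 ∨ k = 2 := by omega
      rcases this with rfl | rfl | rfl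
      · exact hi1 t ht 3 (by norm_num)
      · exact hi1 t ht 4 (by norm_num)
      · exact hi1 t ht 5 (by norm_num)
    have hB1 : z (4 + 16 * t + (9 + k)) 1 = 0 := by
      have : k = 0 ∨ k = 1 ∨ k = 2 := by omega
      rcases this with rfl | rfl | rfl
      · exact hi0 t ht 9 (by norm_num) 1 (by norm_num) (by decide)
      · exact hi0 t ht 10 (by norm_num) 1 (by norm_num) (by decide)
      · exact hi0 t ht 11 (by norm_num) 1 (by norm_num) (by decide)
    have hB2 : z (4 + 16 * t + (9 + k)) 2 = 1 := by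
      have : k = 0 ∨ k = 1 ∨ k = 2 := by omega
      rcases this with rfl | rfl | rfl
      · exact hi1 t ht 9 (by norm_num)
      · exact hi1 t ht 10 (by norm_num)
      · exact hi1 t ht 11 (by norm_num)
    have h1 : ((true, 3 + k), (true, 6 + k)) ∈ tabOf (cAt S t) := by
      unfold tabOf
      have : k = 0 ∨ k = 1 ∨ k = 2 := by omega
      rcases this with rfl | rfl | rfl <;> simp [tCom]
    have h2 : ((true, 3 + k), (false, 0)) ∈ tabOf (cAt S t) := by
      unfold tabOf
      have : k = 0 ∨ k = 1 ∨ k = 2 := by omega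
      rcases this with rfl | rfl | rfl <;> simp [tCom]
    have h3 : ((true, 3 + k), (true, 9 + k)) ∈ tabOf (cAt S t) := by
      unfold tabOf
      have : k = 0 ∨ k = 1 ∨ k = 2 := by omega
      rcases this with rfl | rfl | rfl <;> simp [tCom]
    have g1 := hloc t ht _ h1
    have g2 := hloc t ht _ h2
    have g3 := hloc t ht _ h3
    simp only [ix, if_true, Bool.false_eq_true, if_false] at g1 g2 g3
    rw [hA0, hY1 t ht k hk, hY2 t ht k hk] at g1
    rw [hA0, F0, F1] at g2
    rw [hA0, hB1, hB2] at g3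
    exact ⟨z (4 + 16 * t + (3 + k)) 2, by linarith, by linarith, by linarith⟩
  -- the assignment
  classical
  let v : ℕ → ℝ := fun a => if h : ∃ p : ℕ × ℕ, p.1 < S.length ∧ p.2 < 3 ∧ vr (cAt S p.1) p.2 = a
    then z (4 + 16 * h.choose.1 + h.choose.2) 1 / σ else 0
  have hv : ∀ t < S.length, ∀ k < 3, v (vr (cAt S t) k) = z (4 + 16 * t + k) 1 / σ := by
    intro t ht k hk
    have h : ∃ p : ℕ × ℕ, p.1 < S.length ∧ p.2 < 3 ∧ vr (cAt S p.1) p.2 = vr (cAt S t) k :=
      ⟨(t, k), ht, hk, rfl⟩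
    have h1 : v (vr (cAt S t) k) = z (4 + 16 * h.choose.1 + h.choose.2) 1 / σ := dif_pos h
    obtain ⟨c1, c2, c3⟩ := h.choose_spec
    rw [h1, hcr _ c1 _ c2 t ht k hk c3, hcr t ht k hk t ht k hk rfl]
  refine ⟨v, fun c hc => ?_⟩
  obtain ⟨t, ht, rfl⟩ : ∃ t < S.length, cAt S t = c := by
    obtain ⟨t, ht, rfl⟩ := List.mem_iff_getElem.1 hc
    refine ⟨t, ht, ?_⟩
    unfold cAt
    rw [List.getD_eq_getElem?_getD, List.getElem?_eq_getElem ht]
    simp
  have v0 := hv t ht 0 (by norm_num)
  have v1 := hv t ht 1 (by norm_num)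
  have v2 := hv t ht 2 (by norm_num)
  obtain ⟨w0, a0, b0, d0⟩ := hslot t ht 0 (by norm_num)
  obtain ⟨w1, a1, b1, d1⟩ := hslot t ht 1 (by norm_num)
  obtain ⟨w2, a2, b2, d2⟩ := hslot t ht 2 (by norm_num)
  have hL := hloc t ht
  have X00 := hX0 t ht 0 (by norm_num)
  have X02 := hX2 t ht 0 (by norm_num)
  have Y11 := hY1 t ht 1 (by norm_num)
  have Y12 := hY2 t ht 1 (by norm_num)
  have Y21 := hY1 t ht 2 (by norm_num)
  have Y22 := hY2 t ht 2 (by norm_num)
  have Z01 : z (4 + 16 * t + 9) 1 = 0 := hi0 t ht 9 (by norm_num) 1 (by norm_num) (by decide)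
  have Z02 : z (4 + 16 * t + 9) 2 = 1 := hi1 t ht 9 (by norm_num)
  have Z11 : z (4 + 16 * t + 10) 1 = 0 := hi0 t ht 10 (by norm_num) 1 (by norm_num) (by decide)
  have Z12 : z (4 + 16 * t + 10) 2 = 1 := hi1 t ht 10 (by norm_num)
  have Z21 : z (4 + 16 * t + 11) 1 = 0 := hi0 t ht 11 (by norm_num) 1 (by norm_num) (by decide)
  have Z22 : z (4 + 16 * t + 11) 2 = 1 := hi1 t ht 11 (by norm_num)
  have P0 : z (4 + 16 * t + 12) 0 = 1 := hi1 t ht 12 (by norm_num)
  have R0 : z (4 + 16 * t + 13) 0 = 1 := hi1 t ht 13 (by norm_num)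
  have Q1 : z (4 + 16 * t + 14) 1 = 1 := hi1 t ht 14 (by norm_num)
  have M0 : z (4 + 16 * t + 15) 0 = 0 := hi0 t ht 15 (by norm_num) 0 (by norm_num) (by decide)
  have M2 : z (4 + 16 * t + 15) 2 = 1 := hi1 t ht 15 (by norm_num)
  norm_num at b0 b1 b2 d0 d1 d2 Y11 Y12 Y21 Y22
  cases hc : cAt S t with
  | one a =>
    rw [hc] at v0 hL
    have g := hL ((true, 0), (false, 2)) (by simp [tabOf, tOne, Con.code])
    simp only [ix, if_true, Bool.false_eq_true, if_false] at g
    rw [X00, X02, H0] at g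
    simp only [vr, if_true, Con.code] at v0
    rw [Con.Holds, v0]
    have : z (4 + 16 * t + 0) 1 = σ := by
      have h1 : (z (4 + 16 * t + 0) 1 - σ) * η = 0 := by
        rw [← hη] at g
        linear_combination g - eKH
      rcases mul_eq_zero.1 h1 with h1 | h1
      · linarith
      · exact absurd h1 hη0
    rw [this]
    exact div_self hσ0
  | add a b d =>
    rw [hc] at v0 v1 v2 hL
    have g1 := hL ((true, 12), (true, 8)) (by simp [tabOf, tAdd, Con.code])
    have g2 := hL ((true, 12), (true, 10)) (by simp [tabOf, tAdd, Con.code])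
    have g3 := hL ((true, 12), (true, 14)) (by simp [tabOf, tAdd, Con.code])
    have g4 := hL ((true, 0), (true, 14)) (by simp [tabOf, tAdd, Con.code])
    have g5 := hL ((false, 1), (true, 14)) (by simp [tabOf, tAdd, Con.code])
    simp only [ix, if_true, Bool.false_eq_true, if_false] at g1 g2 g3 g4 g5
    rw [P0, Y21, Y22, b2] at g1
    rw [P0, Z11, Z12, d1] at g2
    rw [P0, Q1] at g3
    rw [X00, X02, Q1] at g4
    rw [G0, G1, Q1, ← hρ] at g5
    have hq : z (4 + 16 * t + 14) 2 = f := by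
      have h1 : (z (4 + 16 * t + 14) 2 - f) * ρ = 0 := by linear_combination g5 - eGF
      rcases mul_eq_zero.1 h1 with h1 | h1
      · linarith
      · exact absurd h1 hρ0
    rw [hq] at g3
    have hp2 : z (4 + 16 * t + 12) 2 = w1 := by linarith
    rw [hp2] at g3
    simp only [vr, if_true, Con.code, one_ne_zero, if_false, OfNat.ofNat_ne_zero,
      OfNat.ofNat_ne_one] at v0 v1 v2
    rw [Con.Holds, v0, v1, v2, ← add_div]
    congr 1
    linarith
  | mul a b d =>
    rw [hc] at v0 v1 v2 hL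
    have g1 := hL ((true, 12), (false, 2)) (by simp [tabOf, tMul, Con.code])
    have g2 := hL ((true, 12), (true, 9)) (by simp [tabOf, tMul, Con.code])
    have g3 := hL ((true, 12), (true, 15)) (by simp [tabOf, tMul, Con.code])
    have g4 := hL ((true, 13), (true, 7)) (by simp [tabOf, tMul, Con.code])
    have g5 := hL ((true, 13), (true, 11)) (by simp [tabOf, tMul, Con.code])
    have g6 := hL ((true, 13), (true, 15)) (by simp [tabOf, tMul, Con.code])
    simp only [ix, if_true, Bool.false_eq_true, if_false] at g1 g2 g3 g4 g5 g6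
    rw [P0, H0, H2, ← hη] at g1
    rw [P0, Z01, Z02, d0] at g2
    rw [P0, M0, M2] at g3
    rw [R0, Y11, Y12, b1] at g4
    rw [R0, Z21, Z22, d2] at g5
    rw [R0, M0, M2] at g6
    have hp1 : z (4 + 16 * t + 12) 1 = σ := by
      have h1 : (z (4 + 16 * t + 12) 1 - σ) * η = 0 := by linear_combination g1 - eKH
      rcases mul_eq_zero.1 h1 with h1 | h1
      · linarith
      · exact absurd h1 hη0
    have hp2 : z (4 + 16 * t + 12) 2 = w0 := by linarith
    have hr1 : z (4 + 16 * t + 13) 1 = z (4 + 16 * t + 1) 1 := by linarith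
    have hr2 : z (4 + 16 * t + 13) 2 = w2 := by linarith
    rw [hp1, hp2] at g3
    rw [hr1, hr2] at g6
    simp only [vr, if_true, Con.code, one_ne_zero, if_false, OfNat.ofNat_ne_zero,
      OfNat.ofNat_ne_one] at v0 v1 v2
    rw [Con.Holds, v0, v1, v2]
    have key : z (4 + 16 * t + 0) 1 * z (4 + 16 * t + 1) 1 = σ * z (4 + 16 * t + 2) 1 := by
      linear_combination (σ * f) * g6 - (z (4 + 16 * t + 1) 1 * f) * g3 +
        z (4 + 16 * t + 1) 1 * a0 - σ * a2
    field_simp
    linarith

theorem sat_iff (S : List Con) : Sat S ↔ CMI (matA (DS S) (ES S), matB (DS S) (ES S)) :=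
  ⟨fun h => (cmi_iff (valid S)).2 (osat_of_sat h), fun h => sat_of_osat ((cmi_iff (valid S)).1 h)⟩

end Pool.Agent.NPC.ER.Q325CI
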