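import Pool.Agent.Q325.CI.Compl
import Pool.Agent.ER.Hard

/-!
# Constrained matrix invertibility: from orthogonality instances to zero patterns
-/

set_option autoImplicit false

namespace Pool.Agent.NPC.ER.Q325CI

/-- A square matrix fits a zero pattern (a list of rows; `true` stands for a star). -/
def Fits (n : ℕ) (P : List (List Bool)) (M : Matrix (Fin n) (Fin n) ℝ) : Prop :=
  ∀ i j : Fin n, (P.getD i []).getD j false = false → M i j = 0

/-- Constrained matrix invertibility: the pair consists of two square zero patterns of the same
size, and some real matrices that fit them have product the identity matrix. -/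
def CMI (I : List (List Bool) × List (List Bool)) : Prop :=
  I.2.length = I.1.length ∧ (∀ row ∈ I.1, row.length = I.1.length) ∧
    (∀ row ∈ I.2, row.length = I.1.length) ∧
    ∃ A B : Matrix (Fin I.1.length) (Fin I.1.length) ℝ, Fits _ I.1 A ∧ Fits _ I.2 B ∧ A * B = 1

/-- A specification of a vector with three coordinates: is it a row vector; the coordinates which
may be nonzero; a coordinate which must be nonzero. -/
abbrev Sp : Type := Bool × List ℕ × ℕ

/-- the specification with a number -/
def sp (D : List Sp) (i : ℕ) : Sp := D.getD i (false, [], 0)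

/-- is the coordinate allowed -/
def al (s : Sp) (k : ℕ) : Bool := s.2.1.any fun x => decide (x = k)

/-- the pair has no constraint -/
def free (E : List (ℕ × ℕ)) (i j : ℕ) : Bool :=
  !(decide (i = j)) && !(E.any fun p => decide (p.1 = i) && decide (p.2 = j))

/-- the entries of the first pattern -/
def entA (D : List Sp) (E : List (ℕ × ℕ)) (i c : ℕ) : Bool :=
  if D.length ≤ i then true
  else if c < 3 then (if (sp D i).1 then al (sp D i) c else decide (c = (sp D i).2.2))
  else decide ((c - 3) / D.length = i) && free E ((c - 3) / D.length) ((c - 3) % D.length)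

/-- the entries of the second pattern -/
def entB (D : List Sp) (E : List (ℕ × ℕ)) (c j : ℕ) : Bool :=
  if D.length ≤ j then true
  else if c < 3 then (if (sp D j).1 then decide (c = (sp D j).2.2) else al (sp D j) c)
  else decide ((c - 3) % D.length = j) && free E ((c - 3) / D.length) ((c - 3) % D.length)

/-- the size of the patterns -/
def dim (D : List Sp) : ℕ := 3 + D.length * D.length

def matA (D : List Sp) (E : List (ℕ × ℕ)) : List (List Bool) :=
  (List.range (dim D)).map fun i => (List.range (dim D)).map fun c => entA D E i c

def matB (D : List Sp) (E : List (ℕ × ℕ)) : List (List Bool) :=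
  (List.range (dim D)).map fun i => (List.range (dim D)).map fun c => entB D E i c

/-- Solvability of an orthogonality instance. -/
def OSat (D : List Sp) (E : List (ℕ × ℕ)) : Prop :=
  ∃ z : ℕ → ℕ → ℝ, (∀ i < D.length, ∀ k < 3, al (sp D i) k = false → z i k = 0) ∧
    (∀ i < D.length, z i (sp D i).2.2 ≠ 0) ∧
    ∀ p ∈ E, ∑ k ∈ Finset.range 3, z p.1 k * z p.2 k = 0

/-- the validity of an orthogonality instance -/
def Valid (D : List Sp) (E : List (ℕ × ℕ)) : Prop :=
  (∀ i < D.length, (sp D i).2.2 < 3) ∧
    ∀ p ∈ E, p.1 < D.length ∧ p.2 < D.length ∧ (sp D p.1).1 = true ∧ (sp D p.2).1 = false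

theorem len_map (n : ℕ) (f : ℕ → ℕ → Bool) :
    ((List.range n).map fun i => (List.range n).map fun c => f i c).length = n := by simp

theorem getD_map (n : ℕ) (f : ℕ → ℕ → Bool) {i c : ℕ} (hi : i < n) (hc : c < n) :
    (((List.range n).map fun i => (List.range n).map fun c => f i c).getD i []).getD c false =
      f i c := by
  have h1 : ((List.range n).map fun i => (List.range n).map fun c => f i c).getD i [] =
      (List.range n).map fun c => f i c := by
    rw [List.getD_eq_getElem?_getD, List.getElem?_map, List.getElem?_range hi]
    simp only [Option.map_some, Option.getD_some]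
  rw [h1, List.getD_eq_getElem?_getD, List.getElem?_map, List.getElem?_range hc]
  simp

/-- the problem for patterns given by functions, with matrices given by functions -/
theorem cmi_map (n : ℕ) (f g : ℕ → ℕ → Bool) :
    CMI ((List.range n).map fun i => (List.range n).map fun c => f i c,
      (List.range n).map fun i => (List.range n).map fun c => g i c) ↔
    ∃ A B : Matrix (Fin n) (Fin n) ℝ, (∀ i j : Fin n, f i j = false → A i j = 0) ∧
      (∀ i j : Fin n, g i j = false → B i j = 0) ∧ A * B = 1 := by
  unfold CMI
  constructor
  · rintro ⟨_, _, _, A, B, hA, hB, hAB⟩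
    have hn : ((List.range n).map fun i => (List.range n).map fun c => f i c).length = n :=
      len_map n f
    refine ⟨A.submatrix (Fin.cast hn.symm) (Fin.cast hn.symm),
      B.submatrix (Fin.cast hn.symm) (Fin.cast hn.symm), ?_, ?_, ?_⟩
    · intro i j hij
      refine hA _ _ ?_
      have := getD_map n f i.2 j.2
      simpa using this.trans hij
    · intro i j hij
      refine hB _ _ ?_
      have := getD_map n g i.2 j.2
      simpa using this.trans hij
    · have h1 := Matrix.submatrix_mul_equiv A B (Fin.cast hn.symm) (finCongr hn.symm)
        (Fin.cast hn.symm)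
      have h2 : (⇑(finCongr hn.symm) : Fin n → _) = Fin.cast hn.symm := by
        funext i
        simp
      rw [h2] at h1
      rw [h1, hAB]
      ext i j
      simp [Matrix.one_apply, Fin.ext_iff]
  · rintro ⟨A, B, hA, hB, hAB⟩
    have hn : ((List.range n).map fun i => (List.range n).map fun c => f i c).length = n :=
      len_map n f
    refine ⟨by simp, ?_, ?_, A.submatrix (Fin.cast hn) (Fin.cast hn),
      B.submatrix (Fin.cast hn) (Fin.cast hn), ?_, ?_, ?_⟩
    · intro row hrow
      rw [List.mem_map] at hrow
      obtain ⟨i, _, rfl⟩ := hrow
      simp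
    · intro row hrow
      rw [List.mem_map] at hrow
      obtain ⟨i, _, rfl⟩ := hrow
      simp
    · intro i j hij
      have hi : (i : ℕ) < n := lt_of_lt_of_eq i.2 hn
      have hj : (j : ℕ) < n := lt_of_lt_of_eq j.2 hn
      rw [Matrix.submatrix_apply]
      refine hA _ _ ?_
      have := getD_map n f hi hj
      simp only [Fin.val_cast]
      rw [← this]
      exact hij
    · intro i j hij
      have hi : (i : ℕ) < n := lt_of_lt_of_eq i.2 hn
      have hj : (j : ℕ) < n := lt_of_lt_of_eq j.2 hn
      rw [Matrix.submatrix_apply]
      refine hB _ _ ?_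
      have := getD_map n g hi hj
      simp only [Fin.val_cast]
      rw [← this]
      exact hij
    · have h1 := Matrix.submatrix_mul_equiv A B (Fin.cast hn) (finCongr hn)
        (Fin.cast hn)
      have h2 : (⇑(finCongr hn) : _ → Fin n) = Fin.cast hn := by
        funext i
        simp
      rw [h2] at h1
      rw [h1, hAB]
      ext i j
      simp [Matrix.one_apply, Fin.ext_iff]

end Pool.Agent.NPC.ER.Q325CI
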