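import Pool.Agent.Q325.CI.Gad

/-!
# Constrained matrix invertibility: polynomial time
-/

set_option autoImplicit false

namespace Pool.Agent.NPC.ER.Q325CI

open Q325MR (cAt poly_cAt)

section

variable {α : Type} [TEnc α]

theorem poly_al {s : α → Sp} {k : α → ℕ} (hs : Poly s) (hk : Poly k) :
    Poly (fun a => al (s a) (k a)) :=
  Poly.any (p := fun a x => decide (x = k a)) (Poly.fst (Poly.snd hs))
    (Poly.decide_eq (Poly.snd Poly.id) (hk.comp (Poly.fst Poly.id)))

theorem poly_sp {D : α → List Sp} {i : α → ℕ} (hD : Poly D) (hi : Poly i) :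
    Poly (fun a => sp (D a) (i a)) := Poly.getD hD hi (Poly.const _)

theorem poly_free {E : α → List (ℕ × ℕ)} {i j : α → ℕ} (hE : Poly E) (hi : Poly i) (hj : Poly j) :
    Poly (fun a => free (E a) (i a) (j a)) := by
  refine Poly.and (Poly.not (Poly.decide_eq hi hj)) (Poly.not (Poly.any
    (p := fun a p => decide (p.1 = i a) && decide (p.2 = j a)) hE ?_))
  exact Poly.and (Poly.decide_eq (Poly.fst (Poly.snd Poly.id)) (hi.comp (Poly.fst Poly.id)))
    (Poly.decide_eq (Poly.snd (Poly.snd Poly.id)) (hj.comp (Poly.fst Poly.id)))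

theorem entA_eq (D : List Sp) (E : List (ℕ × ℕ)) (i c : ℕ) : entA D E i c =
    bif decide (D.length ≤ i) then true else bif decide (c < 3) then
      (bif (sp D i).1 then al (sp D i) c else decide (c = (sp D i).2.2))
    else decide ((c - 3) / D.length = i) && free E ((c - 3) / D.length) ((c - 3) % D.length) := by
  unfold entA
  by_cases h1 : D.length ≤ i <;> by_cases h2 : c < 3 <;> cases h3 : (sp D i).1 <;> simp [h1, h2]

theorem entB_eq (D : List Sp) (E : List (ℕ × ℕ)) (c j : ℕ) : entB D E c j =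
    bif decide (D.length ≤ j) then true else bif decide (c < 3) then
      (bif (sp D j).1 then decide (c = (sp D j).2.2) else al (sp D j) c)
    else decide ((c - 3) % D.length = j) && free E ((c - 3) / D.length) ((c - 3) % D.length) := by
  unfold entB
  by_cases h1 : D.length ≤ j <;> by_cases h2 : c < 3 <;> cases h3 : (sp D j).1 <;> simp [h1, h2]

theorem poly_entA {D : α → List Sp} {E : α → List (ℕ × ℕ)} {i c : α → ℕ} (hD : Poly D)
    (hE : Poly E) (hi : Poly i) (hc : Poly c) : Poly (fun a => entA (D a) (E a) (i a) (c a)) := by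
  have hL := Poly.length hD
  have h3 := Poly.sub hc (Poly.const 3)
  have hsp := poly_sp hD hi
  refine (Poly.cond (Poly.decide_le hL hi) (Poly.const true) (Poly.cond
    (Poly.decide_lt hc (Poly.const 3)) (Poly.cond (Poly.fst hsp) (poly_al hsp hc)
      (Poly.decide_eq hc (Poly.snd (Poly.snd hsp)))) (Poly.and (Poly.decide_eq (Poly.div h3 hL) hi)
        (poly_free hE (Poly.div h3 hL) (Poly.mod h3 hL))))).congr fun a =>
    (entA_eq (D a) (E a) (i a) (c a)).symm

theorem poly_entB {D : α → List Sp} {E : α → List (ℕ × ℕ)} {c j : α → ℕ} (hD : Poly D)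
    (hE : Poly E) (hc : Poly c) (hj : Poly j) : Poly (fun a => entB (D a) (E a) (c a) (j a)) := by
  have hL := Poly.length hD
  have h3 := Poly.sub hc (Poly.const 3)
  have hsp := poly_sp hD hj
  refine (Poly.cond (Poly.decide_le hL hj) (Poly.const true) (Poly.cond
    (Poly.decide_lt hc (Poly.const 3)) (Poly.cond (Poly.fst hsp)
      (Poly.decide_eq hc (Poly.snd (Poly.snd hsp))) (poly_al hsp hc))
        (Poly.and (Poly.decide_eq (Poly.mod h3 hL) hj)
        (poly_free hE (Poly.div h3 hL) (Poly.mod h3 hL))))).congr fun a =>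
    (entB_eq (D a) (E a) (c a) (j a)).symm

theorem upoly_dim {D : α → List Sp} (hD : Poly D) : UPoly (fun a => dim (D a)) :=
  UPoly.add (UPoly.const 3) (UPoly.mul (UPoly.length hD) (UPoly.length hD))

theorem poly_matA {D : α → List Sp} {E : α → List (ℕ × ℕ)} (hD : Poly D) (hE : Poly E) :
    Poly (fun a => matA (D a) (E a)) := by
  refine Poly.map (F := fun a i => (List.range (dim (D a))).map fun c => entA (D a) (E a) i c)
    (UPoly.range (upoly_dim hD)) ?_
  refine Poly.map (F := fun (p : α × ℕ) c => entA (D p.1) (E p.1) p.2 c)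
    ((UPoly.range (upoly_dim hD)).comp (Poly.fst Poly.id)) ?_
  exact poly_entA (hD.comp (Poly.fst (Poly.fst Poly.id))) (hE.comp (Poly.fst (Poly.fst Poly.id)))
    (Poly.snd (Poly.fst Poly.id)) (Poly.snd Poly.id)

theorem poly_matB {D : α → List Sp} {E : α → List (ℕ × ℕ)} (hD : Poly D) (hE : Poly E) :
    Poly (fun a => matB (D a) (E a)) := by
  refine Poly.map (F := fun a i => (List.range (dim (D a))).map fun c => entB (D a) (E a) i c)
    (UPoly.range (upoly_dim hD)) ?_
  refine Poly.map (F := fun (p : α × ℕ) c => entB (D p.1) (E p.1) p.2 c)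
    ((UPoly.range (upoly_dim hD)).comp (Poly.fst Poly.id)) ?_
  exact poly_entB (hD.comp (Poly.fst (Poly.fst Poly.id))) (hE.comp (Poly.fst (Poly.fst Poly.id)))
    (Poly.snd (Poly.fst Poly.id)) (Poly.snd Poly.id)

theorem upoly_len {S : α → List Con} (hS : Poly S) : UPoly (fun a => 4 + 16 * (S a).length) :=
  UPoly.add (UPoly.const 4) (UPoly.mul (UPoly.const 16) (UPoly.length hS))

theorem poly_pos {i : α → ℕ} (hi : Poly i) : Poly (fun a => pos (i a)) :=
  Poly.ite (Poly.decide_lt hi (Poly.const 4)) hi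
    (Poly.add (Poly.const 4) (Poly.mod (Poly.sub hi (Poly.const 4)) (Poly.const 16)))

theorem poly_DS {S : α → List Con} (hS : Poly S) : Poly (fun a => DS (S a)) := by
  refine Poly.map (F := fun _ i => tab.getD (pos i) (false, [], 0)) (UPoly.range (upoly_len hS)) ?_
  exact Poly.getD (Poly.const tab) (poly_pos (Poly.snd Poly.id)) (Poly.const _)

theorem poly_vr {c : α → Con} {k : α → ℕ} (hc : Poly c) (hk : Poly k) :
    Poly (fun a => vr (c a) (k a)) := by
  have h := poly_con_code hc
  exact Poly.ite (Poly.decide_eq hk (Poly.const 0)) (Poly.fst (Poly.snd h))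
    (Poly.ite (Poly.decide_eq hk (Poly.const 1)) (Poly.fst (Poly.snd (Poly.snd h)))
      (Poly.snd (Poly.snd (Poly.snd h))))

theorem poly_ix {t : α → ℕ} {q : α → Bool × ℕ} (ht : Poly t) (hq : Poly q) :
    Poly (fun a => ix (t a) (q a)) := by
  refine (Poly.cond (Poly.fst hq) (Poly.add (Poly.add (Poly.const 4) (Poly.mul (Poly.const 16) ht))
    (Poly.snd hq)) (Poly.snd hq)).congr fun a => ?_
  unfold ix
  cases (q a).1 <;> rfl

theorem poly_tabOf {c : α → Con} (hc : Poly c) : Poly (fun a => tabOf (c a)) := by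
  have h := poly_con_code hc
  exact Poly.append (Poly.const tCom) (Poly.ite (Poly.decide_eq (Poly.fst h) (Poly.const 0))
    (Poly.const tOne) (Poly.ite (Poly.decide_eq (Poly.fst h) (Poly.const 1)) (Poly.const tAdd)
      (Poly.const tMul)))

theorem poly_loc {S : α → List Con} {t : α → ℕ} (hS : Poly S) (ht : Poly t) :
    Poly (fun a => loc (S a) (t a)) := by
  refine Poly.map (F := fun a q => (ix (t a) q.1, ix (t a) q.2)) (poly_tabOf (poly_cAt hS ht)) ?_
  exact Poly.pair (poly_ix (ht.comp (Poly.fst Poly.id)) (Poly.fst (Poly.snd Poly.id)))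
    (poly_ix (ht.comp (Poly.fst Poly.id)) (Poly.snd (Poly.snd Poly.id)))

theorem poly_cross {S : α → List Con} {t t' : α → ℕ} (hS : Poly S) (ht : Poly t) (ht' : Poly t') :
    Poly (fun a => cross (S a) (t a) (t' a)) := by
  have h1 : Poly (fun a => kk.filter fun q =>
      decide (vr (cAt (S a) (t a)) q.1 = vr (cAt (S a) (t' a)) q.2)) := by
    refine Poly.filter (p := fun a q =>
      decide (vr (cAt (S a) (t a)) q.1 = vr (cAt (S a) (t' a)) q.2)) (Poly.const kk) ?_
    exact Poly.decide_eq (poly_vr ((poly_cAt hS ht).comp (Poly.fst Poly.id))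
      (Poly.fst (Poly.snd Poly.id))) (poly_vr ((poly_cAt hS ht').comp (Poly.fst Poly.id))
      (Poly.snd (Poly.snd Poly.id)))
  refine Poly.map (F := fun a q => (4 + 16 * t a + q.1, 4 + 16 * t' a + (6 + q.2))) h1 ?_
  exact Poly.pair (Poly.add (Poly.add (Poly.const 4) (Poly.mul (Poly.const 16)
    (ht.comp (Poly.fst Poly.id)))) (Poly.fst (Poly.snd Poly.id)))
    (Poly.add (Poly.add (Poly.const 4) (Poly.mul (Poly.const 16)
    (ht'.comp (Poly.fst Poly.id)))) (Poly.add (Poly.const 6) (Poly.snd (Poly.snd Poly.id))))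

theorem poly_ES {S : α → List Con} (hS : Poly S) : Poly (fun a => ES (S a)) := by
  have hr := UPoly.range (UPoly.length hS)
  refine Poly.append (Poly.const _) (Poly.append
    (Poly.flatMap (F := fun a t => loc (S a) t) hr (poly_loc (hS.comp (Poly.fst Poly.id))
      (Poly.snd Poly.id)))
    (Poly.flatMap (F := fun a t => (List.range (S a).length).flatMap fun t' => cross (S a) t t') hr
      ?_))
  refine Poly.flatMap (F := fun (p : α × ℕ) t' => cross (S p.1) p.2 t')
    (hr.comp (Poly.fst Poly.id)) ?_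
  exact poly_cross (hS.comp (Poly.fst (Poly.fst Poly.id))) (Poly.snd (Poly.fst Poly.id))
    (Poly.snd Poly.id)

end

/-- Constrained matrix invertibility is `∃ℝ`-hard. -/
theorem cmi_hard : ERHard (lang CMI) :=
  ERHard.of_sys (f := fun S => (matA (DS S) (ES S), matB (DS S) (ES S)))
    (Poly.pair (poly_matA (poly_DS Poly.id) (poly_ES Poly.id))
      (poly_matB (poly_DS Poly.id) (poly_ES Poly.id))) sat_iff

end Pool.Agent.NPC.ER.Q325CI
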