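import Pool.Agent.Q325.CI.Gen

/-!
# Constrained matrix invertibility: orthogonality instances
-/

set_option autoImplicit false

namespace Pool.Agent.NPC.ER.Q325CI

open Finset

theorem idx_div {r i j : ℕ} (hj : j < r) : (i * r + j) / r = i := by
  have hr : 0 < r := by omega
  rw [mul_comm, Nat.mul_add_div hr, Nat.div_eq_of_lt hj, add_zero]

theorem idx_mod {r i j : ℕ} (hj : j < r) : (i * r + j) % r = j := by
  rw [mul_comm, Nat.mul_add_mod, Nat.mod_eq_of_lt hj]

theorem idx_lt {r i j : ℕ} (hi : i < r) (hj : j < r) : i * r + j < r * r := by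
  calc i * r + j < i * r + r := by omega
    _ = (i + 1) * r := by ring
    _ ≤ r * r := Nat.mul_le_mul_right r hi

theorem dot {D : List Sp} {E : List (ℕ × ℕ)} {a b : ℕ → ℕ → ℝ}
    (ha : ∀ i < D.length, ∀ c < dim D, entA D E i c = false → a i c = 0)
    (hb : ∀ c < dim D, ∀ j < D.length, entB D E c j = false → b c j = 0) {i j : ℕ}
    (hi : i < D.length) (hj : j < D.length) :
    ∑ c ∈ range (dim D), a i c * b c j = ∑ k ∈ range 3, a i k * b k j +
      (if free E i j = true then a i (3 + (i * D.length + j)) * b (3 + (i * D.length + j)) j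
        else 0) := by
  have hlt := idx_lt hi hj
  unfold dim
  rw [Finset.sum_range_add]
  congr 1
  have h3 : ∀ p, 3 + p - 3 = p := fun p => by omega
  rw [Finset.sum_eq_single (i * D.length + j)]
  · split_ifs with hf
    · rfl
    · rw [ha i hi (3 + (i * D.length + j)) (by unfold dim; omega), zero_mul]
      unfold entA
      rw [if_neg (by omega), if_neg (by omega), h3, idx_div hj, idx_mod hj]
      simp only [Bool.not_eq_true] at hf
      rw [hf, Bool.and_false]
  · intro p hp hne
    rw [mem_range] at hp
    by_cases h1 : p / D.length = i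
    · have h2 : p % D.length ≠ j := by
        intro h2
        apply hne
        rw [← h1, ← h2, mul_comm]
        exact (Nat.div_add_mod p D.length).symm
      rw [hb (3 + p) (by unfold dim; omega) j hj, mul_zero]
      unfold entB
      rw [if_neg (by omega), if_neg (by omega), h3]
      simp [h2]
    · rw [ha i hi (3 + p) (by unfold dim; omega), zero_mul]
      unfold entA
      rw [if_neg (by omega), if_neg (by omega), h3]
      simp [h1]
  · intro h
    exact absurd (mem_range.2 hlt) h

theorem free_self (E : List (ℕ × ℕ)) (i : ℕ) : free E i i = false := by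
  simp [free]

theorem free_mem {E : List (ℕ × ℕ)} {p : ℕ × ℕ} (h : p ∈ E) : free E p.1 p.2 = false := by
  unfold free
  have : (E.any fun q => decide (q.1 = p.1) && decide (q.2 = p.2)) = true := by
    rw [List.any_eq_true]
    exact ⟨p, h, by simp⟩
  rw [this]
  simp

theorem free_false {E : List (ℕ × ℕ)} {i j : ℕ} (h : free E i j = false) (hij : i ≠ j) :
    (i, j) ∈ E := by
  unfold free at h
  simp only [decide_eq_false hij, Bool.not_false, Bool.true_and, Bool.not_eq_false'] at h
  rw [List.any_eq_true] at h
  obtain ⟨q, hq, h2⟩ := h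
  simp only [Bool.and_eq_true, decide_eq_true_eq] at h2
  have : q = (i, j) := Prod.ext h2.1 h2.2
  rw [← this]
  exact hq

theorem osat_of_cmi {D : List Sp} {E : List (ℕ × ℕ)} (hV : Valid D E)
    (h : CMI (matA D E, matB D E)) : OSat D E := by
  unfold matA matB at h
  rw [cmi_map] at h
  obtain ⟨A, B, hA, hB, hAB⟩ := h
  obtain ⟨hV1, hV2⟩ := hV
  set a : ℕ → ℕ → ℝ := fun i c => if h : i < dim D ∧ c < dim D then A ⟨i, h.1⟩ ⟨c, h.2⟩ else 0
    with ha0
  set b : ℕ → ℕ → ℝ := fun i c => if h : i < dim D ∧ c < dim D then B ⟨i, h.1⟩ ⟨c, h.2⟩ else 0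
    with hb0
  have hrd : ∀ i, i < D.length → i < dim D := by
    intro i hi
    have : D.length ≤ D.length * D.length := Nat.le_mul_self _
    unfold dim
    omega
  have ha : ∀ i < D.length, ∀ c < dim D, entA D E i c = false → a i c = 0 := by
    intro i hi c hc he
    simp only [ha0]
    rw [dif_pos ⟨hrd i hi, hc⟩]
    exact hA ⟨i, hrd i hi⟩ ⟨c, hc⟩ he
  have hb : ∀ c < dim D, ∀ j < D.length, entB D E c j = false → b c j = 0 := by
    intro c hc j hj he
    simp only [hb0]
    rw [dif_pos ⟨hc, hrd j hj⟩]
    exact hB ⟨c, hc⟩ ⟨j, hrd j hj⟩ he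
  have hab : ∀ i j, i < D.length → j < D.length →
      ∑ c ∈ range (dim D), a i c * b c j = if i = j then 1 else 0 := by
    intro i j hi hj
    have h1 := congrFun (congrFun hAB ⟨i, hrd i hi⟩) ⟨j, hrd j hj⟩
    rw [Matrix.mul_apply, Matrix.one_apply] at h1
    rw [Finset.sum_range]
    simp only [Fin.mk.injEq] at h1
    rw [← h1]
    refine sum_congr rfl fun c _ => ?_
    simp only [ha0, hb0]
    rw [dif_pos ⟨hrd i hi, c.2⟩, dif_pos ⟨c.2, hrd j hj⟩]
  refine ⟨fun i k => if (sp D i).1 = true then a i k else b k i, ?_, ?_, ?_⟩
  · intro i hi k hk hal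
    have hkd : k < dim D := by unfold dim; omega
    dsimp only
    split_ifs with hU
    · refine ha i hi k hkd ?_
      unfold entA
      rw [if_neg (by omega), if_pos hk, if_pos hU]
      exact hal
    · refine hb k hkd i hi ?_
      unfold entB
      rw [if_neg (by omega), if_pos hk, if_neg hU]
      exact hal
  · intro i hi
    have h1 := hab i i hi hi
    rw [dot ha hb hi hi, free_self, if_pos rfl] at h1
    simp only [Bool.false_eq_true, if_false, add_zero] at h1
    have hf := hV1 i hi
    dsimp only
    have hsum : a i (sp D i).2.2 * b (sp D i).2.2 i = 1 := by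
      rw [← h1]
      symm
      refine Finset.sum_eq_single (sp D i).2.2 ?_ ?_
      · intro k hk hne
        rw [mem_range] at hk
        have hkd : k < dim D := by unfold dim; omega
        by_cases hU : (sp D i).1 = true
        · rw [hb k hkd i hi, mul_zero]
          unfold entB
          rw [if_neg (by omega), if_pos hk, if_pos hU]
          simp [hne]
        · rw [ha i hi k hkd, zero_mul]
          unfold entA
          rw [if_neg (by omega), if_pos hk, if_neg hU]
          simp [hne]
      · intro h2
        exact absurd (mem_range.2 hf) h2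
    split_ifs with hU
    · exact left_ne_zero_of_mul (by rw [hsum]; exact one_ne_zero)
    · exact right_ne_zero_of_mul (by rw [hsum]; exact one_ne_zero)
  · intro p hp
    obtain ⟨h1, h2, h3, h4⟩ := hV2 p hp
    have h5 := hab p.1 p.2 h1 h2
    have hne : p.1 ≠ p.2 := by
      intro h
      rw [h, h4] at h3
      exact Bool.false_ne_true h3
    rw [dot ha hb h1 h2, free_mem hp, if_neg hne] at h5
    simp only [Bool.false_eq_true, if_false, add_zero] at h5
    simp only [h3, h4, if_true, Bool.false_eq_true, if_false]
    exact h5

theorem cmi_of_osat {D : List Sp} {E : List (ℕ × ℕ)} (hV : Valid D E) (h : OSat D E) :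
    CMI (matA D E, matB D E) := by
  unfold matA matB
  rw [cmi_map]
  obtain ⟨hV1, hV2⟩ := hV
  obtain ⟨z, hz1, hz2, hz3⟩ := h
  set r := D.length with hr
  -- the shared parts
  set f : ℕ → ℕ := fun i => (sp D i).2.2 with hf
  set x : ℕ → ℕ → ℝ := fun i k => if (sp D i).1 = true then z i k else if k = f i then 1 else 0
    with hx
  set y : ℕ → ℕ → ℝ := fun k j => if (sp D j).1 = true then (if k = f j then (z j (f j))⁻¹ else 0)
    else z j k * (z j (f j))⁻¹ with hy
  set g : ℕ → ℕ → ℝ := fun i j => ∑ k ∈ range 3, x i k * y k j with hg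
  set a : ℕ → ℕ → ℝ := fun i c => if c < 3 then x i c else
    if entA D E i c = true then 1 else 0 with ha0
  set b : ℕ → ℕ → ℝ := fun c j => if c < 3 then y c j else
    if entB D E c j = true then - g ((c - 3) / r) ((c - 3) % r) else 0 with hb0
  have ha : ∀ i < D.length, ∀ c < dim D, entA D E i c = false → a i c = 0 := by
    intro i hi c hc he
    simp only [ha0]
    split_ifs with h1 h2
    · unfold entA at he
      rw [if_neg (by omega), if_pos h1] at he
      simp only [hx]
      split_ifs at he ⊢ with h3 h4
      · exact hz1 i hi c h1 he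
      · simp [hf] at h4
        simp [h4] at he
      · rfl
    · rw [he] at h2
      exact absurd h2 Bool.false_ne_true
    · rfl
  have hb : ∀ c < dim D, ∀ j < D.length, entB D E c j = false → b c j = 0 := by
    intro c hc j hj he
    simp only [hb0]
    split_ifs with h1 h2
    · unfold entB at he
      rw [if_neg (by omega), if_pos h1] at he
      simp only [hy]
      split_ifs at he ⊢ with h3 h4
      · simp [hf] at h4
        simp [h4] at he
      · rfl
      · rw [hz1 j hj c h1 he, zero_mul]
    · rw [he] at h2
      exact absurd h2 Bool.false_ne_true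
    · rfl
  have hgii : ∀ i < r, g i i = 1 := by
    intro i hi
    have hfi : f i < 3 := hV1 i hi
    have hzi : z i (f i) ≠ 0 := hz2 i hi
    simp only [hg]
    rw [Finset.sum_eq_single (f i)]
    · simp only [hx, hy]
      split_ifs with hU
      · simp [hzi]
      · simp [hzi]
    · intro k _ hk
      simp only [hx, hy]
      split_ifs with hU
      · simp
      · simp
    · intro h1
      exact absurd (mem_range.2 hfi) h1
  have hgE : ∀ p ∈ E, g p.1 p.2 = 0 := by
    intro p hp
    obtain ⟨h1, h2, h3, h4⟩ := hV2 p hp
    have h5 := hz3 p hp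
    simp only [hg, hx, hy, h3, h4, if_true, Bool.false_eq_true, if_false]
    have : ∑ k ∈ range 3, z p.1 k * (z p.2 k * (z p.2 (f p.2))⁻¹) =
        (∑ k ∈ range 3, z p.1 k * z p.2 k) * (z p.2 (f p.2))⁻¹ := by
      rw [sum_mul]
      exact sum_congr rfl fun k _ => by ring
    rw [this, h5, zero_mul]
  have hab : ∀ i j, i < r → j < r →
      ∑ c ∈ range (dim D), a i c * b c j = if i = j then 1 else 0 := by
    intro i j hi hj
    rw [dot ha hb hi hj]
    have h1 : ∑ k ∈ range 3, a i k * b k j = g i j := by
      simp only [hg]
      refine sum_congr rfl fun k hk => ?_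
      rw [mem_range] at hk
      simp only [ha0, hb0]
      rw [if_pos hk, if_pos hk]
    rw [h1]
    by_cases hfr : free E i j = true
    · rw [if_pos hfr]
      have hne : i ≠ j := by
        rintro rfl
        rw [free_self] at hfr
        exact absurd hfr Bool.false_ne_true
      have hA : entA D E i (3 + (i * D.length + j)) = true := by
        unfold entA
        rw [if_neg (by omega), if_neg (by omega), show 3 + (i * D.length + j) - 3 =
          i * D.length + j by omega, idx_div hj, idx_mod hj, hfr]
        simp
      have hB : entB D E (3 + (i * D.length + j)) j = true := by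
        unfold entB
        rw [if_neg (by omega), if_neg (by omega), show 3 + (i * D.length + j) - 3 =
          i * D.length + j by omega, idx_div hj, idx_mod hj, hfr]
        simp
      have e1 : a i (3 + (i * D.length + j)) = 1 := by
        simp only [ha0]
        rw [if_neg (by omega), if_pos hA]
      have e2 : b (3 + (i * D.length + j)) j = - g i j := by
        simp only [hb0]
        rw [if_neg (by omega), if_pos hB,
          show 3 + (i * D.length + j) - 3 = i * D.length + j by omega, idx_div hj, idx_mod hj]
      rw [e1, e2, if_neg hne]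
      ring
    · rw [if_neg hfr, add_zero]
      simp only [Bool.not_eq_true] at hfr
      by_cases hij : i = j
      · subst hij
        rw [if_pos rfl]
        exact hgii i hi
      · rw [if_neg hij]
        exact hgE (i, j) (free_false hfr hij)
  obtain ⟨s, hs⟩ : ∃ s, dim D = r + s := by
    have : D.length ≤ D.length * D.length := Nat.le_mul_self _
    refine ⟨dim D - r, ?_⟩
    unfold dim
    omega
  obtain ⟨A, B, h1, h2, h3⟩ := completion (r := r) (s := s) (Matrix.of fun i c => a i c)
    (Matrix.of fun c j => b c j) (by
      ext i j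
      rw [Matrix.mul_apply, Matrix.one_apply]
      have h4 := hab i j i.2 j.2
      rw [hs, Finset.sum_range] at h4
      simp only [Matrix.of_apply, Fin.ext_iff]
      exact h4)
  rw [hs]
  refine ⟨A, B, ?_, ?_, h1⟩
  · intro i j hij
    induction i using Fin.addCases with
    | left i =>
      rw [h2]
      exact ha i i.2 j (by rw [hs]; exact j.2) hij
    | right i =>
      exfalso
      unfold entA at hij
      rw [if_pos (by simp only [Fin.val_natAdd]; omega)] at hij
      exact Bool.false_ne_true hij.symm
  · intro i j hij
    induction j using Fin.addCases with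
    | left j =>
      rw [h3]
      exact hb i (by rw [hs]; exact i.2) j j.2 hij
    | right j =>
      exfalso
      unfold entB at hij
      rw [if_pos (by simp only [Fin.val_natAdd]; omega)] at hij
      exact Bool.false_ne_true hij.symm

theorem cmi_iff {D : List Sp} {E : List (ℕ × ℕ)} (hV : Valid D E) :
    CMI (matA D E, matB D E) ↔ OSat D E := ⟨osat_of_cmi hV, cmi_of_osat hV⟩

end Pool.Agent.NPC.ER.Q325CI
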